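import Mathlib
import Pool.Agent.K1H27.TP.Stm

/-! Project TP, piece AREA (bathtub). -/

set_option autoImplicit false

namespace Pool.Agent.K1H97.TP

open MeasureTheory Pool.Agent.K1H27.TP

lemma ii {f : ℝ → ℝ} (hm : Measurable f) (h0 : ∀ x, 0 ≤ f x) (h1 : ∀ x, f x ≤ 1) (a b : ℝ) :
    IntervalIntegrable f volume a b := by
  refine (intervalIntegrable_const (c := (1 : ℝ)) (μ := volume) (a := a) (b := b)).mono_fun'
    hm.aestronglyMeasurable (Filter.Eventually.of_forall fun x => ?_)
  show ‖f x‖ ≤ 1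
  rw [Real.norm_eq_abs, abs_of_nonneg (h0 x)]
  exact h1 x

lemma le_len {f : ℝ → ℝ} (hm : Measurable f) (h0 : ∀ x, 0 ≤ f x) (h1 : ∀ x, f x ≤ 1) {a b : ℝ}
    (hab : a ≤ b) : ∫ s in a..b, f s ≤ b - a := by
  have h := intervalIntegral.integral_mono_on hab (ii hm h0 h1 a b)
    (intervalIntegrable_const (c := (1 : ℝ)) (μ := volume)) (fun x _ => h1 x)
  simpa using h

lemma up_area {f : ℝ → ℝ} (hm : Measurable f) (h0 : ∀ x, 0 ≤ f x) (h1 : ∀ x, f x ≤ 1) {u v : ℝ}
    (huv : u ≤ v) : ∫ t in u..v, (∫ s in u..t, f s) ≤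
      (∫ s in u..v, f s) * (v - u) - (∫ s in u..v, f s) ^ 2 / 2 := by
  set A := ∫ s in u..v, f s with hA
  have hA0 : 0 ≤ A := intervalIntegral.integral_nonneg huv fun x _ => h0 x
  have hA1 : A ≤ v - u := le_len hm h0 h1 huv
  have hcont : Continuous fun t => ∫ s in u..t, f s :=
    intervalIntegral.continuous_primitive (fun a b => ii hm h0 h1 a b) u
  rw [← intervalIntegral.integral_add_adjacent_intervals (b := u + A)
    (hcont.intervalIntegrable u (u + A)) (hcont.intervalIntegrable (u + A) v)]
  have e1 : ∫ t in u..(u + A), (∫ s in u..t, f s) ≤ ∫ t in u..(u + A), (t - u) :=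
    intervalIntegral.integral_mono_on (by linarith) (hcont.intervalIntegrable _ _)
      ((continuous_id.sub continuous_const).intervalIntegrable _ _)
      (fun t ht => le_len hm h0 h1 ht.1)
  have e2 : ∫ t in (u + A)..v, (∫ s in u..t, f s) ≤ ∫ t in (u + A)..v, A := by
    refine intervalIntegral.integral_mono_on (by linarith) (hcont.intervalIntegrable _ _)
      (intervalIntegrable_const) (fun t ht => ?_)
    have h2 := intervalIntegral.integral_add_adjacent_intervals (ii hm h0 h1 u t) (ii hm h0 h1 t v)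
    have h3 : 0 ≤ ∫ s in t..v, f s := intervalIntegral.integral_nonneg ht.2 fun x _ => h0 x
    rw [hA]
    linarith
  have e3 : ∫ t in u..(u + A), (t - u) = A ^ 2 / 2 := by
    rw [intervalIntegral.integral_sub (f := fun t : ℝ => t) (g := fun _ : ℝ => u)
      (continuous_id.intervalIntegrable _ _) (intervalIntegrable_const), integral_id, intervalIntegral.integral_const, smul_eq_mul]
    ring
  have e4 : ∫ t in (u + A)..v, A = (v - (u + A)) * A := by
    rw [intervalIntegral.integral_const, smul_eq_mul]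
  rw [e3] at e1
  rw [e4] at e2
  nlinarith

lemma lo_area {f : ℝ → ℝ} (hm : Measurable f) (h0 : ∀ x, 0 ≤ f x) (h1 : ∀ x, f x ≤ 1) {u v : ℝ}
    (huv : u ≤ v) : (∫ s in u..v, f s) ^ 2 / 2 ≤ ∫ t in u..v, (∫ s in u..t, f s) := by
  set B := ∫ s in u..v, f s with hB
  have hB0 : 0 ≤ B := intervalIntegral.integral_nonneg huv fun x _ => h0 x
  have hB1 : B ≤ v - u := le_len hm h0 h1 huv
  have hcont : Continuous fun t => ∫ s in u..t, f s :=
    intervalIntegral.continuous_primitive (fun a b => ii hm h0 h1 a b) u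
  rw [← intervalIntegral.integral_add_adjacent_intervals (b := v - B)
    (hcont.intervalIntegrable u (v - B)) (hcont.intervalIntegrable (v - B) v)]
  have e1 : 0 ≤ ∫ t in u..(v - B), (∫ s in u..t, f s) :=
    intervalIntegral.integral_nonneg (by linarith)
      fun t ht => intervalIntegral.integral_nonneg ht.1 fun x _ => h0 x
  have e2 : ∫ t in (v - B)..v, (B - v + t) ≤ ∫ t in (v - B)..v, (∫ s in u..t, f s) := by
    refine intervalIntegral.integral_mono_on (by linarith)
      ((continuous_const.add continuous_id).intervalIntegrable _ _)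
      (hcont.intervalIntegrable _ _) (fun t ht => ?_)
    have h2 := intervalIntegral.integral_add_adjacent_intervals (ii hm h0 h1 u t) (ii hm h0 h1 t v)
    have h3 := le_len hm h0 h1 ht.2
    rw [hB]
    linarith
  have e3 : ∫ t in (v - B)..v, (B - v + t) = B ^ 2 / 2 := by
    rw [intervalIntegral.integral_add (f := fun _ : ℝ => B - v) (g := fun t : ℝ => t)
      (intervalIntegrable_const) (continuous_id.intervalIntegrable _ _), integral_id, intervalIntegral.integral_const,
      smul_eq_mul]
    ring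
  rw [e3] at e2
  linarith

/-- `AREA` -/
theorem t_AREA : S_AREA := by
  intro u v ψ huv hm hb
  have hb' : ∀ x, -1 ≤ ψ x ∧ ψ x ≤ 1 := fun x => abs_le.1 (hb x)
  have m1 : Measurable fun s => max (ψ s) 0 := hm.max measurable_const
  have m2 : Measurable fun s => max (-ψ s) 0 := hm.neg.max measurable_const
  have a0 : ∀ x, 0 ≤ max (ψ x) 0 := fun x => le_max_right _ _
  have a1 : ∀ x, max (ψ x) 0 ≤ 1 := fun x => max_le (hb' x).2 zero_le_one
  have b0 : ∀ x, 0 ≤ max (-ψ x) 0 := fun x => le_max_right _ _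
  have b1 : ∀ x, max (-ψ x) 0 ≤ 1 := fun x => max_le (by linarith [(hb' x).1]) zero_le_one
  have e : ∀ t, ∫ s in u..t, ψ s = (∫ s in u..t, max (ψ s) 0) - ∫ s in u..t, max (-ψ s) 0 := by
    intro t
    rw [← intervalIntegral.integral_sub (ii m1 a0 a1 u t) (ii m2 b0 b1 u t)]
    refine intervalIntegral.integral_congr fun s _ => ?_
    show ψ s = max (ψ s) 0 - max (-ψ s) 0
    rcases le_total 0 (ψ s) with h | h
    · rw [max_eq_left h, max_eq_right (by linarith)]; ring
    · rw [max_eq_right h, max_eq_left (by linarith)]; ring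
  simp only [e]
  rw [intervalIntegral.integral_sub
    ((intervalIntegral.continuous_primitive (fun a b => ii m1 a0 a1 a b) u).intervalIntegrable _ _)
    ((intervalIntegral.continuous_primitive (fun a b => ii m2 b0 b1 a b) u).intervalIntegrable _ _)]
  have h1 := up_area m1 a0 a1 huv
  have h2 := lo_area m2 b0 b1 huv
  unfold U pm nm
  linarith

end Pool.Agent.K1H97.TP
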